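import Mathlib
import Pool.Agent.Helper9.TG.Grid3

set_option autoImplicit false

/-!
# Grids in the trace class: the sharp order of the distortion

For every complex Hilbert space `H` and all `m, n ≥ 1`,
`c_{S_1(H)}([m]_∞^n) ≥ min(m, √n) / 16512`.
With `H = ℓ_2` and `m = ⌈√n⌉` this reads `c_{S_1}([⌈√n⌉]_∞^n) ≥ √n / 16512` for all `n ≥ 1`
(theorem `question_two` at the end of the file): the answer to the second question is yes.
-/

namespace Pool.Agent.Results.MP_a656fc_an.SharpTraceClassGrids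

open Pool.Agent.Results.MP_fd02da_an.SchattenIsometries

universe u

/-- The grid `[m]_∞^n = {0, 1, ..., m}^n`. Its metric is the restriction of the metric of
`Fin n → ℕ`, that is `dist x y = max_j |x_j - y_j|`. -/
abbrev Grid (m n : ℕ) : Type := {x : Fin n → ℕ // ∀ j, x j ≤ m}

/-- `X` embeds into `Y` with distortion `D`. -/
def EmbedsWith (X Y : Type*) [PseudoMetricSpace X] [PseudoMetricSpace Y] (D : ℝ) : Prop :=
  ∃ (f : X → Y) (lam : ℝ), 0 < lam ∧
    ∀ x y : X, lam * dist x y ≤ dist (f x) (f y) ∧ dist (f x) (f y) ≤ D * lam * dist x y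

/-- `c_Y(X)`: the infimum, in the extended reals, of the `D` such that `X` embeds into `Y` with
distortion `D`. -/
noncomputable def distortion (X Y : Type*) [PseudoMetricSpace X] [PseudoMetricSpace Y] : EReal :=
  ⨅ (D : ℝ) (_ : EmbedsWith X Y D), (D : EReal)

/-- The trace class `S_1(H)`: the compact operators `T` on `H` with `tr (T* T)^(1/2) < ∞`, normed by
`tr (T* T)^(1/2)`. -/
noncomputable abbrev TraceClass (H : Type u) [NormedAddCommGroup H] [InnerProductSpace ℂ H]
    [CompleteSpace H] : Type u := SchattenClass (1 : ℝ) H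

/-- **The trace class and `ℓ_∞` grids.** For every complex Hilbert space `H` and all `m, n ≥ 1`, the
distortion of `[m]_∞^n` in `S_1(H)` is at least `min(m, √n) / 16512`. -/
theorem result (H : Type u) [NormedAddCommGroup H] [InnerProductSpace ℂ H] [CompleteSpace H]
    (n m : ℕ) (hn : 1 ≤ n) (hm : 1 ≤ m) :
    ((min (m : ℝ) (Real.sqrt n) / 16512 : ℝ) : EReal) ≤ distortion (Grid m n) (TraceClass H) := by
  refine le_iInf₂ fun D hD => ?_
  obtain ⟨f, lam, hlam, hf⟩ := hD
  have h := TG9.main3 n m hn hm f hlam hf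
  rw [EReal.coe_le_coe_iff, div_le_iff₀ (by norm_num)]
  linarith

/-- The second question, as posed: there is `c > 0` with `c_{S_1}([⌈√n⌉]_∞^n) ≥ c √n` for all
`n ≥ 1`, where `S_1` is the trace class of `ℓ_2`. -/
theorem question_two : ∃ c : ℝ, 0 < c ∧ ∀ n : ℕ, 1 ≤ n →
    ((c * Real.sqrt n : ℝ) : EReal) ≤
      distortion (Grid ⌈Real.sqrt n⌉₊ n) (TraceClass (lp (fun _ : ℕ => ℂ) 2)) := by
  refine ⟨1 / 16512, by norm_num, fun n hn => ?_⟩
  have hn1 : (1 : ℝ) ≤ Real.sqrt n := by
    rw [Real.one_le_sqrt]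
    exact_mod_cast hn
  have hm : 1 ≤ ⌈Real.sqrt n⌉₊ := Nat.one_le_ceil_iff.2 (by linarith)
  have h := result (lp (fun _ : ℕ => ℂ) 2) n ⌈Real.sqrt n⌉₊ hn hm
  rw [min_eq_right (Nat.le_ceil _)] at h
  refine le_trans (le_of_eq ?_) h
  congr 1
  ring

end Pool.Agent.Results.MP_a656fc_an.SharpTraceClassGrids
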